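import Pool.Agent.Helper33.PT.Defs
import Pool.Agent.Helper93.RatRiccati

/-!
# T-RIC: a relation on a dense subset of a long window gives a Riccati equation on the tail
-/

set_option autoImplicit false

open Finset Polynomial

namespace Pool.Agent.Helper79.PT

open Pool.Agent.Helper45.FR Pool.Agent.Helper33.UB Pool.Agent.Helper51.RatTree Pool.Agent.Helper93.RatODE
  Pool.Agent.Helper33.PS Pool.Agent.Helper55.RD

/-- intersection of a set with its translate -/
lemma card_shift (a w t : ℕ) (s : Finset ℕ) (hs : s ⊆ Finset.Ico a (a + w)) :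
    2 * s.card ≤ (s.filter fun j => j + t ∈ s).card + (w + t) := by
  classical
  have h1 : (s.image fun j => j + t).card = s.card :=
    card_image_of_injective _ (fun i j h => by simpa using h)
  have h2 : s ∪ (s.image fun j => j + t) ⊆ Finset.Ico a (a + w + t) := by
    intro j hj
    rcases mem_union.mp hj with hj | hj
    · have := Finset.mem_Ico.mp (hs hj)
      exact Finset.mem_Ico.mpr ⟨by omega, by omega⟩
    · obtain ⟨i, hi, rfl⟩ := mem_image.mp hj
      have := Finset.mem_Ico.mp (hs hi)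
      exact Finset.mem_Ico.mpr ⟨by omega, by omega⟩
  have h3 := card_le_card h2
  rw [Nat.card_Ico] at h3
  have h4 := card_union_add_card_inter s (s.image fun j => j + t)
  have h5 : (s ∩ (s.image fun j => j + t)).card ≤ (s.filter fun j => j + t ∈ s).card := by
    apply card_le_card_of_injOn (fun j => j - t)
    · intro j hj
      obtain ⟨hj1, hj2⟩ := mem_inter.mp (mem_coe.mp hj)
      obtain ⟨i, hi, rfl⟩ := mem_image.mp hj2
      refine mem_coe.mpr (mem_filter.mpr ?_)
      simp only [Nat.add_sub_cancel]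
      exact ⟨hi, hj1⟩
    · intro j hj l hl e
      obtain ⟨-, hj2⟩ := mem_inter.mp (mem_coe.mp hj)
      obtain ⟨-, hl2⟩ := mem_inter.mp (mem_coe.mp hl)
      obtain ⟨i, -, rfl⟩ := mem_image.mp hj2
      obtain ⟨i', -, rfl⟩ := mem_image.mp hl2
      simp only [Nat.add_sub_cancel] at e
      rw [e]
  omega

/-- T-RIC: a relation on a dense subset of a long window gives a Riccati equation on the tail -/
theorem riccati_tail (d r : ℕ) (hd : 2 ≤ d) : ∃ n₀ : ℕ, ∀ {K : Type} [Field K] [DecidableEq K] {D : K → K}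
    (_ : ∀ x y, D (x + y) = D x + D y) (_ : ∀ x y, D (x * y) = x * D y + y * D x)
    {F G : K[X]} (_ : IsRat F G d) {x : ℕ → K} (_ : ∀ j, G.eval (x j) ≠ 0)
    (_ : ∀ j, x (j + 1) = F.eval (x j) / G.eval (x j)) (a w : ℕ) (_ : n₀ ≤ w)
    (_ : Set.InjOn x (Set.Icc a (a + w))) (s : Finset ℕ) (_ : s ⊆ Finset.Ico a (a + w))
    (_ : 9 * w ≤ 10 * s.card) (_ : Pool.Agent.Helper33.UB.Rel D r (s.image x)),
    ∃ i, a ≤ i ∧ i ≤ a + w ∧ ∃ α β γ : K, ∀ j, i ≤ j → D (x j) = α * x j ^ 2 + β * x j + γ := by
  refine ⟨2 * ((r + 1) * d ^ (r + 1) + 4 * d + 10 * r + 20), ?_⟩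
  intro K _ _ D hadd hmul F G hFG x hne hstep a w hw hinj s hs hcard hrel
  have hmaxdeg : max F.natDegree G.natDegree = d := by
    rcases hFG.top with h | h
    · have := le_natDegree_of_ne_zero h
      have := hFG.dA
      have := hFG.dB
      omega
    · have := le_natDegree_of_ne_zero h
      have := hFG.dA
      have := hFG.dB
      omega
  obtain ⟨U, W, hUW, hU, hW, hUWtop, hit, -⟩ := exists_iterate hFG.cop hFG.dA hFG.dB hmaxdeg
    (by omega : 1 ≤ d) (r + 1)
  have hit' := hit x (fun i => ⟨hne i, hstep i⟩)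
  set Λ := s.filter fun j => j + (r + 1) ∈ s with hΛ
  have hΛc : 2 * s.card ≤ Λ.card + (w + (r + 1)) := card_shift a w (r + 1) s hs
  have hIcc : ∀ j ∈ s, j ∈ Set.Icc a (a + w) := fun j hj => by
    have := Finset.mem_Ico.mp (hs hj)
    exact ⟨this.1, this.2.le⟩
  have hΛs : ∀ j ∈ Λ, j ∈ s ∧ j + (r + 1) ∈ s := fun j hj => mem_filter.mp hj
  obtain ⟨A, Cp, h0, hA, hAr, hC, hrel⟩ := hrel
  have hinj1 : Set.InjOn x (Λ : Set ℕ) := fun i hi j hj e =>
    hinj (hIcc i (hΛs i hi).1) (hIcc j (hΛs j hj).1) e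
  have hinj2 : Set.InjOn (fun j => x (j + (r + 1))) (Λ : Set ℕ) := fun i hi j hj e => by
    have := hinj (hIcc _ (hΛs i hi).2) (hIcc _ (hΛs j hj).2) e
    omega
  have himg : (Λ.image x).image (fun y => U.eval y / W.eval y) = Λ.image fun j => x (j + (r + 1)) := by
    rw [image_image]
    apply image_congr
    intro j _
    exact (hit' j).2
  have hc1 : (Λ.image x).card = Λ.card := card_image_of_injOn hinj1
  have hc2 : (Λ.image fun j => x (j + (r + 1))).card = Λ.card := card_image_of_injOn hinj2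
  have hΛbig : (r + 1) * d ^ (r + 1) + 2 * r + 5 < Λ.card := by omega
  obtain ⟨α, β, γ, hαβ⟩ := riccati_of_ode hadd hmul hUW hU hW hUWtop r (by
      calc r < 2 ^ r := Nat.lt_two_pow_self
        _ ≤ 2 ^ (r + 1) := Nat.pow_le_pow_right (by norm_num) (by omega)
        _ ≤ d ^ (r + 1) := Nat.pow_le_pow_left hd _) (Λ.image x) (by
      intro y hy
      obtain ⟨j, hj, rfl⟩ := mem_image.mp hy
      exact (hit' j).1) (by
      rw [hc1]; omega) (by
      rw [himg, hc2]
      have : 1 ≤ (r + 1) * d ^ (r + 1) := Nat.mul_pos (by omega) (by positivity)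
      omega) h0 hA hAr hC (by
      intro y hy
      obtain ⟨j, hj, rfl⟩ := mem_image.mp hy
      rw [(hit' j).2]
      exact hrel _ (mem_image_of_mem _ (hΛs j hj).2)) h0 hA hC (by
      intro y hy
      obtain ⟨j, hj, rfl⟩ := mem_image.mp hy
      exact hrel _ (mem_image_of_mem _ (hΛs j hj).1))
  rw [himg] at hαβ
  -- the good indices
  set s' := s.filter fun i => D (x i) = α * x i ^ 2 + β * x i + γ with hs'
  have hs'Ico : s' ⊆ Finset.Ico a (a + w) := (filter_subset _ _).trans hs
  have hs'c : Λ.card ≤ s'.card + r := by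
    have h3 := card_filter_add_card_filter_not (s := Λ)
      (fun j => D (x (j + (r + 1))) = α * x (j + (r + 1)) ^ 2 + β * x (j + (r + 1)) + γ)
    have h4 : (Λ.filter fun j => ¬ (D (x (j + (r + 1))) = α * x (j + (r + 1)) ^ 2 +
        β * x (j + (r + 1)) + γ)).card ≤ r := by
      refine le_trans ?_ hαβ
      apply card_le_card_of_injOn (fun j => x (j + (r + 1)))
      · intro j hj
        have hj' := mem_filter.mp hj
        exact mem_coe.mpr (mem_filter.mpr ⟨mem_image_of_mem _ hj'.1, hj'.2⟩)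
      · intro i hi j hj e
        exact hinj2 (mem_filter.mp hi).1 (mem_filter.mp hj).1 e
    have h5 : (Λ.filter fun j => D (x (j + (r + 1))) = α * x (j + (r + 1)) ^ 2 +
        β * x (j + (r + 1)) + γ).card ≤ s'.card := by
      apply card_le_card_of_injOn (fun j => j + (r + 1))
      · intro j hj
        obtain ⟨hj1, hj2⟩ := mem_filter.mp (mem_coe.mp hj)
        exact mem_coe.mpr (mem_filter.mpr ⟨(hΛs j hj1).2, hj2⟩)
      · intro i _ j _ e
        simpa using e
    omega
  -- the polynomial identity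
  set V : K[X] := C α * X ^ 2 + C β * X + C γ with hV
  have hVe : ∀ z, V.eval z = α * z ^ 2 + β * z + γ := fun z => by simp [hV]
  set Q : K[X] := (C α * F ^ 2 + C β * (F * G) + C γ * G ^ 2) -
    ((mapD D F * G - F * mapD D G) + (derivative F * G - F * derivative G) * V) with hQ
  have hQdeg : Q.natDegree ≤ 2 * d + 2 := by
    have dV : V.natDegree ≤ 2 := by
      rw [hV]
      refine natDegree_add_le_of_degree_le (natDegree_add_le_of_degree_le ?_ ?_) ?_
      · exact natDegree_C_mul_X_pow_le _ _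
      · exact (natDegree_C_mul_le _ _).trans (natDegree_X_le.trans (by norm_num))
      · rw [natDegree_C]; norm_num
    have dF := hFG.dA
    have dG := hFG.dB
    have m1 : (mapD D F).natDegree ≤ d := (mapD_natDegree D F).trans dF
    have m2 : (mapD D G).natDegree ≤ d := (mapD_natDegree D G).trans dG
    have m3 : (derivative F).natDegree ≤ d := (natDegree_derivative_le F).trans (by omega)
    have m4 : (derivative G).natDegree ≤ d := (natDegree_derivative_le G).trans (by omega)
    have mm : ∀ {P R : K[X]} {p q : ℕ}, P.natDegree ≤ p → R.natDegree ≤ q → (P * R).natDegree ≤ p + q :=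
      fun h1 h2 => natDegree_mul_le.trans (Nat.add_le_add h1 h2)
    have sb : ∀ {P R : K[X]} {p : ℕ}, P.natDegree ≤ p → R.natDegree ≤ p → (P - R).natDegree ≤ p :=
      fun h1 h2 => (natDegree_sub_le _ _).trans (max_le h1 h2)
    have ad : ∀ {P R : K[X]} {p : ℕ}, P.natDegree ≤ p → R.natDegree ≤ p → (P + R).natDegree ≤ p :=
      fun h1 h2 => natDegree_add_le_of_degree_le h1 h2
    have cm : ∀ {P : K[X]} {p : ℕ} (c : K), P.natDegree ≤ p → (C c * P).natDegree ≤ p :=
      fun c h1 => (natDegree_C_mul_le _ _).trans h1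
    rw [hQ]
    refine sb (ad (ad (cm _ ?_) (cm _ ?_)) (cm _ ?_)) (ad (sb ?_ ?_) ?_)
    · exact natDegree_pow_le.trans (by omega)
    · exact (mm dF dG).trans (by omega)
    · exact natDegree_pow_le.trans (by omega)
    · exact (mm m1 dG).trans (by omega)
    · exact (mm dF m2).trans (by omega)
    · exact (mm (sb (mm m3 dG) (mm dF m4)) dV).trans (by omega)
  have hQe : ∀ i, D (x i) = V.eval (x i) →
      Q.eval (x i) = G.eval (x i) ^ 2 * (V.eval (x (i + 1)) - D (x (i + 1))) := by
    intro i hi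
    have h1 := D_div hmul (u := F.eval (x i)) (hne i)
    rw [← hstep i, D_eval hadd hmul, D_eval hadd hmul, hi] at h1
    have h2 : x (i + 1) * G.eval (x i) = F.eval (x i) := by
      rw [hstep i, div_mul_cancel₀ _ (hne i)]
    have h3 : Q.eval (x i) = (α * F.eval (x i) ^ 2 + β * (F.eval (x i) * G.eval (x i)) +
        γ * G.eval (x i) ^ 2) - (((mapD D F).eval (x i) * G.eval (x i) -
        F.eval (x i) * (mapD D G).eval (x i)) + ((derivative F).eval (x i) * G.eval (x i) -
        F.eval (x i) * (derivative G).eval (x i)) * V.eval (x i)) := by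
      rw [hQ]
      simp only [eval_sub, eval_add, eval_mul, eval_pow, eval_C]
    rw [h3, hVe (x (i + 1))]
    rw [← h2]
    rw [← h2] at h1
    linear_combination h1
  have hQ0 : Q = 0 := by
    set s2 := s'.filter fun j => j + 1 ∈ s' with hs2
    have hs2c : 2 * s'.card ≤ s2.card + (w + 1) := card_shift a w 1 s' hs'Ico
    apply eq_zero_of_natDegree_lt_card_of_eval_eq_zero' Q (s2.image x)
    · intro y hy
      obtain ⟨i, hi, rfl⟩ := mem_image.mp hy
      obtain ⟨hi1, hi2⟩ := mem_filter.mp hi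
      have e1 := (mem_filter.mp hi1).2
      have e2 := (mem_filter.mp hi2).2
      rw [hQe i (by rw [hVe]; exact e1), hVe, ← e2, sub_self, mul_zero]
    · have hinj3 : Set.InjOn x (s2 : Set ℕ) := fun i hi j hj e =>
        hinj (hIcc i (mem_filter.mp (mem_filter.mp (mem_coe.mp hi)).1).1)
          (hIcc j (mem_filter.mp (mem_filter.mp (mem_coe.mp hj)).1).1) e
      rw [card_image_of_injOn hinj3]
      omega
  have hs'ne : s'.Nonempty := by
    rw [← card_pos]; omega
  obtain ⟨i, hi⟩ := hs'ne
  have hi1 := Finset.mem_Ico.mp (hs'Ico hi)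
  refine ⟨i, hi1.1, hi1.2.le, α, β, γ, ?_⟩
  intro j hj
  induction j, hj using Nat.le_induction with
  | base => exact (mem_filter.mp hi).2
  | succ j hj ih =>
    have h1 := hQe j (by rw [hVe]; exact ih)
    rw [hQ0, eval_zero] at h1
    have h2 := mul_eq_zero.mp h1.symm
    rcases h2 with h2 | h2
    · exact absurd h2 (pow_ne_zero 2 (hne j))
    · rw [← hVe]
      exact (sub_eq_zero.mp h2).symm

end Pool.Agent.Helper79.PT
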